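import Pool.Agent.H14.FinalC

/-!
# The Hilbert scheme of four points of a smooth quasi-projective variety is normal and
Cohen–Macaulay

The proof: every point of the Hilbert scheme specialises to a closed point, i.e. to a subscheme of
length four. Near this subscheme there are functions `x₁, …, x_r` (`r = 1, 2, 3`), part of a system
of étale coordinates, such that `1, x, x², x³`, or `1, x, x², y`, or `1, x, y, z` is a basis of the
structure sheaf of the subscheme. The Hilbert scheme is then smooth over the corresponding chart of
the Hilbert scheme of four points of affine `r`-space. These charts are affine spaces of dimension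
`4` and `8` for `r = 1, 2`, and for `r = 3` the product of the cone over the Grassmannian `G(2,6)`
and affine `3`-space.
-/

set_option autoImplicit false

open CategoryTheory AlgebraicGeometry Limits

namespace Pool.Agent.Results.MP_26f572_ag.NormalCohenMacaulay

open Pool.Agent.H14

/-- Let `X` be a smooth quasi-projective scheme of pure dimension `d ≥ 1` over an algebraically
closed field `k` of characteristic different from `2` (for example `ℂ`). Then its Hilbert scheme of
four points is locally of finite type over `k`, and all its local rings are normal domains and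
Cohen–Macaulay. -/
theorem result {k : Type} [Field k] [IsAlgClosed k] (h2 : (2 : k) ≠ 0) (d : ℕ) (hd : 1 ≤ d)
    {X : Scheme.{0}} (f : X ⟶ Spec (CommRingCat.of k)) [SmoothOfRelativeDimension d f]
    (hqp : IsQuasiProjective f) {H 𝒵 : Scheme.{0}} (s : H ⟶ Spec (CommRingCat.of k))
    (π : 𝒵 ⟶ H) (α : 𝒵 ⟶ X) (hH : IsHilbertScheme f 4 s π α) :
    LocallyOfFiniteType s ∧ IsLocallyNoetherian H ∧
      (∀ x : H, IsDomain (H.presheaf.stalk x) ∧ IsIntegrallyClosed (H.presheaf.stalk x)) ∧
      ∀ x : H, IsCMLocal (H.presheaf.stalk x) := by
  have hsep : IsSeparated f := hqp.isSeparated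
  have hsm : Smooth f := SmoothOfRelativeDimension.smooth d f
  have h1 : LocallyOfFiniteType s := locallyOfFiniteType_hilb hH hqp.af
  have h3 : ∀ x : H, IsNCM (H.presheaf.stalk x) := fun x => ncm_stalk hH h2 d hd hqp.af x
  exact ⟨h1, LocallyOfFiniteType.isLocallyNoetherian s, fun x => ⟨(h3 x).1, (h3 x).2.1⟩,
    fun x => (h3 x).2.2⟩

end Pool.Agent.Results.MP_26f572_ag.NormalCohenMacaulay
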